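import Pool.Agent.Helper61.PV.St

/-!
# Project PV, module Siz: size of a polynomial value
-/

set_option autoImplicit false

namespace Pool.Agent.Helper13.PV

open Pool.Agent.Helper61.PV Finset

theorem hSiz : StSiz := by
  intro d m c H κ hκ hκ1 hH hc hlast hm
  have h4κ : 0 < 4 / κ := by positivity
  have hM1 : 4 / κ ≤ (m : ℝ) - 1 := by linarith
  have hM1' : 0 < (m : ℝ) - 1 := by linarith
  have hM0 : (0 : ℝ) ≤ m := by linarith
  have hMd : (0 : ℝ) ≤ (m : ℝ) ^ d := by positivity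
  have hev : ((ev c m : ℤ) : ℝ) = ∑ i : Fin d, (c i.castSucc : ℝ) * (m : ℝ) ^ (i : ℕ) +
      (c (Fin.last d) : ℝ) * (m : ℝ) ^ d := by
    unfold ev
    rw [Fin.sum_univ_castSucc]
    push_cast
    simp only [Fin.val_castSucc]
  have hlow : |∑ i : Fin d, (c i.castSucc : ℝ) * (m : ℝ) ^ (i : ℕ)| ≤ κ * H * (m : ℝ) ^ d / 2 := by
    have h1 : |∑ i : Fin d, (c i.castSucc : ℝ) * (m : ℝ) ^ (i : ℕ)| ≤
        ∑ i : Fin d, 2 * H * (m : ℝ) ^ (i : ℕ) := by
      refine (Finset.abs_sum_le_sum_abs _ _).trans (Finset.sum_le_sum fun i _ => ?_)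
      rw [abs_mul, abs_of_nonneg (show (0 : ℝ) ≤ (m : ℝ) ^ (i : ℕ) by positivity)]
      exact mul_le_mul_of_nonneg_right (hc _) (by positivity)
    have h2 : ∑ i : Fin d, 2 * H * (m : ℝ) ^ (i : ℕ) = 2 * H * (((m : ℝ) ^ d - 1) / ((m : ℝ) - 1)) := by
      rw [Fin.sum_univ_eq_sum_range (fun i => 2 * H * (m : ℝ) ^ i), ← Finset.mul_sum,
        geom_sum_eq (by linarith)]
    rw [h2] at h1
    refine h1.trans ?_
    have h3 : ((m : ℝ) ^ d - 1) / ((m : ℝ) - 1) ≤ κ / 4 * (m : ℝ) ^ d := by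
      rw [div_le_iff₀ hM1']
      have h4 : 1 ≤ κ / 4 * ((m : ℝ) - 1) := by
        rw [div_le_iff₀ hκ] at hM1
        linarith
      have h5 := mul_le_mul_of_nonneg_right h4 hMd
      linarith
    have h4 := mul_le_mul_of_nonneg_left h3 (show 0 ≤ 2 * H by linarith)
    linarith
  have hl := abs_le.1 hlow
  have hc2 : (c (Fin.last d) : ℝ) ≤ 2 * H := (le_abs_self _).trans (hc _)
  have h5 := mul_le_mul_of_nonneg_right hlast hMd
  have h6 := mul_le_mul_of_nonneg_right hc2 hMd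
  have h7 : κ * H * (m : ℝ) ^ d ≤ H * (m : ℝ) ^ d := by
    have : κ * (H * (m : ℝ) ^ d) ≤ 1 * (H * (m : ℝ) ^ d) :=
      mul_le_mul_of_nonneg_right hκ1 (by positivity)
    linarith
  have h8 : 0 ≤ H * (m : ℝ) ^ d := by positivity
  rw [hev]
  constructor
  · linarith [hl.1]
  · linarith [hl.2]

end Pool.Agent.Helper13.PV
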